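import Mathlib

set_option autoImplicit false

/-!
Lower envelopes of finitely many lines `i + τ j` (`i, j` natural numbers) against `D √τ`.
-/

namespace Pool.Agent.DegRange

open Finset

/-- the line `τ ↦ i + τ j` -/
noncomputable def lv (p : ℕ × ℕ) (τ : ℝ) : ℝ := (p.1 : ℝ) + τ * (p.2 : ℝ)

theorem lv_sub (p : ℕ × ℕ) (τ σ : ℝ) : lv p σ = lv p τ + (σ - τ) * (p.2 : ℝ) := by
  unfold lv
  ring

theorem right_end (A : Finset (ℕ × ℕ)) (p : ℕ × ℕ) (t y : ℝ) (hty : t ≤ y)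
    (hact : ∀ r ∈ A, lv p t ≤ lv r t) :
    ∃ β, t ≤ β ∧ β ≤ y ∧ (∀ r ∈ A, lv p β ≤ lv r β) ∧
      (β = y ∨ ∃ q ∈ A, q.2 ≠ p.2 ∧ lv q β = lv p β) := by
  classical
  -- lines of larger or equal slope stay above
  have hge : ∀ r ∈ A, p.2 ≤ r.2 → ∀ σ, t ≤ σ → lv p σ ≤ lv r σ := by
    intro r hr h σ hσ
    rw [lv_sub p t σ, lv_sub r t σ]
    have h1 : (p.2 : ℝ) ≤ r.2 := by exact_mod_cast h
    have h2 := mul_le_mul_of_nonneg_left h1 (by linarith : 0 ≤ σ - t)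
    linarith [hact r hr]
  by_cases hB : (A.filter (fun q => q.2 < p.2 ∧ lv q y < lv p y)).Nonempty
  · obtain ⟨q, hq, hmin⟩ := Finset.exists_min_image _
      (fun q : ℕ × ℕ => ((q.1 : ℝ) - p.1) / ((p.2 : ℝ) - q.2)) hB
    rw [Finset.mem_filter] at hq
    obtain ⟨hqA, hq2, hqy⟩ := hq
    have hq2' : (q.2 : ℝ) < p.2 := by exact_mod_cast hq2
    have hden : 0 < (p.2 : ℝ) - q.2 := by linarith
    refine ⟨((q.1 : ℝ) - p.1) / ((p.2 : ℝ) - q.2), ?_, ?_, ?_, Or.inr ⟨q, hqA, by omega, ?_⟩⟩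
    · rw [le_div_iff₀ hden]
      have := hact q hqA
      unfold lv at this
      linarith
    · rw [div_le_iff₀ hden]
      unfold lv at hqy
      linarith
    · intro r hr
      by_cases h : p.2 ≤ r.2
      · apply hge r hr h
        rw [le_div_iff₀ hden]
        have := hact q hqA
        unfold lv at this
        linarith
      · push Not at h
        have h' : (r.2 : ℝ) < p.2 := by exact_mod_cast h
        have hden' : 0 < (p.2 : ℝ) - r.2 := by linarith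
        by_cases h3 : lv r y < lv p y
        · have h4 := hmin r (by rw [Finset.mem_filter]; exact ⟨hr, h, h3⟩)
          rw [le_div_iff₀ hden'] at h4
          unfold lv
          linarith
        · push Not at h3
          set β := ((q.1 : ℝ) - p.1) / ((p.2 : ℝ) - q.2) with hβ
          have hβy : β ≤ y := by
            rw [hβ, div_le_iff₀ hden]
            unfold lv at hqy
            linarith
          rw [lv_sub p y β, lv_sub r y β]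
          have := mul_le_mul_of_nonneg_left h'.le (by linarith : 0 ≤ y - β)
          linarith
    · unfold lv
      have : ((q.1 : ℝ) - p.1) / ((p.2 : ℝ) - q.2) * ((p.2 : ℝ) - q.2) = (q.1 : ℝ) - p.1 :=
        div_mul_cancel₀ _ hden.ne'
      linarith
  · refine ⟨y, hty, le_rfl, ?_, Or.inl rfl⟩
    intro r hr
    by_cases h : p.2 ≤ r.2
    · exact hge r hr h y hty
    · push Not at h
      by_contra h3
      push Not at h3
      exact hB ⟨r, by rw [Finset.mem_filter]; exact ⟨hr, h, h3⟩⟩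

theorem left_end (A : Finset (ℕ × ℕ)) (p : ℕ × ℕ) (x t : ℝ) (hxt : x ≤ t)
    (hact : ∀ r ∈ A, lv p t ≤ lv r t) :
    ∃ α, x ≤ α ∧ α ≤ t ∧ (∀ r ∈ A, lv p α ≤ lv r α) ∧
      (α = x ∨ ∃ q ∈ A, q.2 ≠ p.2 ∧ lv q α = lv p α) := by
  classical
  have hge : ∀ r ∈ A, r.2 ≤ p.2 → ∀ σ, σ ≤ t → lv p σ ≤ lv r σ := by
    intro r hr h σ hσ
    rw [lv_sub p t σ, lv_sub r t σ]
    have h1 : (r.2 : ℝ) ≤ p.2 := by exact_mod_cast h
    have h2 := mul_le_mul_of_nonneg_left h1 (by linarith : 0 ≤ t - σ)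
    linarith [hact r hr]
  by_cases hB : (A.filter (fun q => p.2 < q.2 ∧ lv q x < lv p x)).Nonempty
  · obtain ⟨q, hq, hmax⟩ := Finset.exists_max_image _
      (fun q : ℕ × ℕ => ((p.1 : ℝ) - q.1) / ((q.2 : ℝ) - p.2)) hB
    rw [Finset.mem_filter] at hq
    obtain ⟨hqA, hq2, hqx⟩ := hq
    have hq2' : (p.2 : ℝ) < q.2 := by exact_mod_cast hq2
    have hden : 0 < (q.2 : ℝ) - p.2 := by linarith
    have hαt : ((p.1 : ℝ) - q.1) / ((q.2 : ℝ) - p.2) ≤ t := by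
      rw [div_le_iff₀ hden]
      have := hact q hqA
      unfold lv at this
      linarith
    have hxα : x ≤ ((p.1 : ℝ) - q.1) / ((q.2 : ℝ) - p.2) := by
      rw [le_div_iff₀ hden]
      unfold lv at hqx
      linarith
    refine ⟨((p.1 : ℝ) - q.1) / ((q.2 : ℝ) - p.2), hxα, hαt, ?_, Or.inr ⟨q, hqA, by omega, ?_⟩⟩
    · intro r hr
      by_cases h : r.2 ≤ p.2
      · exact hge r hr h _ hαt
      · push Not at h
        have h' : (p.2 : ℝ) < r.2 := by exact_mod_cast h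
        have hden' : 0 < (r.2 : ℝ) - p.2 := by linarith
        by_cases h3 : lv r x < lv p x
        · have h4 := hmax r (by rw [Finset.mem_filter]; exact ⟨hr, h, h3⟩)
          rw [div_le_iff₀ hden'] at h4
          unfold lv
          linarith
        · push Not at h3
          set α := ((p.1 : ℝ) - q.1) / ((q.2 : ℝ) - p.2) with hα
          rw [lv_sub p x α, lv_sub r x α]
          have := mul_le_mul_of_nonneg_left h'.le (by linarith : 0 ≤ α - x)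
          linarith
    · unfold lv
      have : ((p.1 : ℝ) - q.1) / ((q.2 : ℝ) - p.2) * ((q.2 : ℝ) - p.2) = (p.1 : ℝ) - q.1 :=
        div_mul_cancel₀ _ hden.ne'
      linarith
  · refine ⟨x, le_rfl, hxt, ?_, Or.inl rfl⟩
    intro r hr
    by_cases h : r.2 ≤ p.2
    · exact hge r hr h x hxt
    · push Not at h
      by_contra h3
      push Not at h3
      exact hB ⟨r, by rw [Finset.mem_filter]; exact ⟨hr, h, h3⟩⟩

/-- `τ ↦ i + τ j - D √τ` is convex. -/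
theorem between (p : ℕ × ℕ) (D α t β : ℝ) (hα : 0 ≤ α) (h1 : α ≤ t) (h2 : t ≤ β)
    (hA : lv p α ≤ D * Real.sqrt α) (hB : lv p β ≤ D * Real.sqrt β) :
    lv p t ≤ D * Real.sqrt t := by
  obtain ⟨a, ha⟩ : ∃ a, a = Real.sqrt α := ⟨_, rfl⟩
  obtain ⟨b, hb⟩ : ∃ b, b = Real.sqrt β := ⟨_, rfl⟩
  obtain ⟨s, hs⟩ : ∃ s, s = Real.sqrt t := ⟨_, rfl⟩
  have ea : α = a ^ 2 := by rw [ha, Real.sq_sqrt hα]
  have eb : β = b ^ 2 := by rw [hb, Real.sq_sqrt (by linarith)]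
  have es : t = s ^ 2 := by rw [hs, Real.sq_sqrt (by linarith)]
  have has : a ≤ s := by rw [ha, hs]; exact Real.sqrt_le_sqrt h1
  have hsb : s ≤ b := by rw [hs, hb]; exact Real.sqrt_le_sqrt h2
  rw [← ha] at hA
  rw [← hb] at hB
  rw [← hs]
  unfold lv at *
  rw [ea] at hA
  rw [eb] at hB
  rw [es]
  rcases eq_or_lt_of_le (has.trans hsb) with hab | hab
  · have : s = a := le_antisymm (by linarith) has
    rw [this]
    exact hA
  · have hba : 0 < b - a := by linarith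
    have e1 := mul_le_mul_of_nonneg_left hA (by linarith : 0 ≤ b - s)
    have e2 := mul_le_mul_of_nonneg_left hB (by linarith : 0 ≤ s - a)
    have e3 : 0 ≤ (p.2 : ℝ) * ((b - a) * ((s - a) * (b - s))) := by
      apply mul_nonneg (Nat.cast_nonneg _)
      apply mul_nonneg hba.le
      exact mul_nonneg (by linarith) (by linarith)
    have e4 : (b - a) * ((p.1 : ℝ) + s ^ 2 * p.2) ≤ (b - a) * (D * s) := by
      nlinarith
    exact le_of_mul_le_mul_left e4 hba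

theorem core (A : Finset (ℕ × ℕ)) (D x y t : ℝ) (hx : 0 < x) (hxt : x ≤ t) (hty : t ≤ y)
    (hX : ∃ p ∈ A, lv p x ≤ D * Real.sqrt x) (hY : ∃ p ∈ A, lv p y ≤ D * Real.sqrt y)
    (hK : ∀ β : ℝ, x ≤ β → β ≤ y → ∀ p ∈ A, ∀ q ∈ A, q.2 ≠ p.2 → lv q β = lv p β →
      (∀ r ∈ A, lv p β ≤ lv r β) → lv p β ≤ D * Real.sqrt β) :
    ∃ p ∈ A, lv p t ≤ D * Real.sqrt t := by
  obtain ⟨px, hpx, hpx'⟩ := hX
  obtain ⟨py, hpy, hpy'⟩ := hY
  obtain ⟨p, hp, hact⟩ := Finset.exists_min_image A (fun r => lv r t) ⟨px, hpx⟩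
  refine ⟨p, hp, ?_⟩
  obtain ⟨β, hβ1, hβ2, hβ3, hβ4⟩ := right_end A p t y hty hact
  obtain ⟨α, hα1, hα2, hα3, hα4⟩ := left_end A p x t hxt hact
  apply between p D α t β (by linarith) hα2 hβ1
  · rcases hα4 with rfl | ⟨q, hq, hne, he⟩
    · exact (hα3 px hpx).trans hpx'
    · exact hK α hα1 (by linarith) p hp q hq hne he hα3
  · rcases hβ4 with rfl | ⟨q, hq, hne, he⟩
    · exact (hβ3 py hpy).trans hpy'
    · exact hK β (by linarith) hβ2 p hp q hq hne he hβ3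

theorem kink_aux {β : ℝ} (hβ : 0 < β) {p q : ℕ × ℕ} (hlt : q.2 < p.2)
    (heq : lv q β = lv p β) (d : ℕ) (ε : ℝ) (hε : 0 ≤ ε)
    (hle : lv p β ≤ d * Real.sqrt β * (1 + ε))
    (hsmall : (d : ℝ) ^ 4 * (1 + ε) ^ 2 * (2 * ε + ε ^ 2) < 1) :
    lv p β ≤ d * Real.sqrt β := by
  by_contra hcon
  push Not at hcon
  obtain ⟨Q, hQ⟩ : ∃ Q : ℕ, p.2 = q.2 + Q := ⟨p.2 - q.2, by omega⟩
  have hQ1 : 1 ≤ Q := by omega
  have hQr : (p.2 : ℝ) = q.2 + Q := by exact_mod_cast hQ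
  have hβQ : β * Q = (((q.1 : ℤ) - (p.1 : ℤ) : ℤ) : ℝ) := by
    push_cast
    unfold lv at heq
    rw [hQr] at heq
    linarith
  obtain ⟨V, hV⟩ : ∃ V, V = lv p β := ⟨_, rfl⟩
  rw [← hV] at hle hcon
  have hM : V * Q = (((p.1 : ℤ) * Q + (p.2 : ℤ) * ((q.1 : ℤ) - (p.1 : ℤ)) : ℤ) : ℝ) := by
    have e : V * Q = (p.1 : ℝ) * Q + p.2 * (β * Q) := by
      rw [hV]
      unfold lv
      ring
    rw [e, hβQ]
    push_cast
    ring
  obtain ⟨P, hP⟩ : ∃ P : ℤ, P = (q.1 : ℤ) - (p.1 : ℤ) := ⟨_, rfl⟩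
  obtain ⟨M, hMd⟩ : ∃ M : ℤ, M = (p.1 : ℤ) * Q + (p.2 : ℤ) * ((q.1 : ℤ) - (p.1 : ℤ)) := ⟨_, rfl⟩
  rw [← hP] at hβQ
  rw [← hMd] at hM
  have hs : 0 ≤ Real.sqrt β := Real.sqrt_nonneg _
  have hss : Real.sqrt β ^ 2 = β := Real.sq_sqrt hβ.le
  have hd : (0 : ℝ) ≤ d := Nat.cast_nonneg _
  have hds : 0 ≤ (d : ℝ) * Real.sqrt β := mul_nonneg hd hs
  have hV0 : 0 < V := by linarith
  have hQ0 : (1 : ℝ) ≤ Q := by exact_mod_cast hQ1
  -- V^2 > d^2 β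
  have hV2 : (d : ℝ) ^ 2 * β < V ^ 2 := by
    have := pow_lt_pow_left₀ hcon hds (two_ne_zero)
    rwa [mul_pow, hss] at this
  have hV2' : V ^ 2 ≤ (d : ℝ) ^ 2 * β * (1 + ε) ^ 2 := by
    have := pow_le_pow_left₀ hV0.le hle 2
    rwa [mul_pow, mul_pow, hss] at this
  -- integrality
  have hint : (d : ℝ) ^ 2 * β * (Q : ℝ) ^ 2 + 1 ≤ V ^ 2 * (Q : ℝ) ^ 2 := by
    have e1 : (d : ℝ) ^ 2 * β * (Q : ℝ) ^ 2 = (((d : ℤ) ^ 2 * P * Q : ℤ) : ℝ) := by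
      push_cast
      rw [← hβQ]
      ring
    have e2 : V ^ 2 * (Q : ℝ) ^ 2 = ((M ^ 2 : ℤ) : ℝ) := by
      push_cast
      rw [← hM]
      ring
    have e3 : (((d : ℤ) ^ 2 * P * Q : ℤ) : ℝ) < ((M ^ 2 : ℤ) : ℝ) := by
      rw [← e1, ← e2]
      exact mul_lt_mul_of_pos_right hV2 (by positivity)
    rw [e1, e2]
    have e4 : (d : ℤ) ^ 2 * P * Q < M ^ 2 := by exact_mod_cast e3
    have e5 : (d : ℤ) ^ 2 * P * Q + 1 ≤ M ^ 2 := by omega
    exact_mod_cast e5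
  -- Q β ≤ V
  have hQβ : (Q : ℝ) * β ≤ V := by
    have e1 : (Q : ℝ) ≤ p.2 := by
      rw [hQr]
      have : (0 : ℝ) ≤ q.2 := Nat.cast_nonneg _
      linarith
    have e2 : β * Q ≤ β * p.2 := mul_le_mul_of_nonneg_left e1 hβ.le
    have e3 : (0 : ℝ) ≤ p.1 := Nat.cast_nonneg _
    have e4 : V = p.1 + β * p.2 := hV
    linarith
  have hQ2 : (Q : ℝ) ^ 2 * β ≤ (d : ℝ) ^ 2 * (1 + ε) ^ 2 := by
    have e1 : ((Q : ℝ) * β) ^ 2 ≤ V ^ 2 := pow_le_pow_left₀ (by positivity) hQβ 2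
    have e2 : β * ((Q : ℝ) ^ 2 * β) ≤ β * ((d : ℝ) ^ 2 * (1 + ε) ^ 2) := by
      calc β * ((Q : ℝ) ^ 2 * β) = ((Q : ℝ) * β) ^ 2 := by ring
        _ ≤ V ^ 2 := e1
        _ ≤ (d : ℝ) ^ 2 * β * (1 + ε) ^ 2 := hV2'
        _ = β * ((d : ℝ) ^ 2 * (1 + ε) ^ 2) := by ring
    exact le_of_mul_le_mul_left e2 hβ
  have hfin : (1 : ℝ) ≤ (d : ℝ) ^ 4 * (1 + ε) ^ 2 * (2 * ε + ε ^ 2) := by
    have e1 : (Q : ℝ) ^ 2 * V ^ 2 ≤ (Q : ℝ) ^ 2 * ((d : ℝ) ^ 2 * β * (1 + ε) ^ 2) :=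
      mul_le_mul_of_nonneg_left hV2' (by positivity)
    have e2 : (1 : ℝ) ≤ ((Q : ℝ) ^ 2 * β) * ((d : ℝ) ^ 2 * (2 * ε + ε ^ 2)) := by
      nlinarith
    have e3 : ((Q : ℝ) ^ 2 * β) * ((d : ℝ) ^ 2 * (2 * ε + ε ^ 2)) ≤
        ((d : ℝ) ^ 2 * (1 + ε) ^ 2) * ((d : ℝ) ^ 2 * (2 * ε + ε ^ 2)) :=
      mul_le_mul_of_nonneg_right hQ2 (by positivity)
    calc (1 : ℝ) ≤ ((d : ℝ) ^ 2 * (1 + ε) ^ 2) * ((d : ℝ) ^ 2 * (2 * ε + ε ^ 2)) := e2.trans e3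
      _ = (d : ℝ) ^ 4 * (1 + ε) ^ 2 * (2 * ε + ε ^ 2) := by ring
  linarith

/-- **Integrality at a kink.** -/
theorem kink {β : ℝ} (hβ : 0 < β) {p q : ℕ × ℕ} (hne : q.2 ≠ p.2)
    (heq : lv q β = lv p β) (d : ℕ) (ε : ℝ) (hε : 0 ≤ ε)
    (hle : lv p β ≤ d * Real.sqrt β * (1 + ε))
    (hsmall : (d : ℝ) ^ 4 * (1 + ε) ^ 2 * (2 * ε + ε ^ 2) < 1) :
    lv p β ≤ d * Real.sqrt β := by
  rcases lt_or_gt_of_ne hne with h | h
  · exact kink_aux hβ h heq d ε hε hle hsmall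
  · rw [← heq] at hle ⊢
    exact kink_aux hβ h heq.symm d ε hε hle hsmall

/-- a kink is rational -/
theorem kink_rat {β : ℝ} {p q : ℕ × ℕ} (hne : q.2 ≠ p.2) (heq : lv q β = lv p β) :
    ∃ r : ℚ, (r : ℝ) = β := by
  refine ⟨((q.1 : ℚ) - p.1) / ((p.2 : ℚ) - q.2), ?_⟩
  have h1 : (p.2 : ℝ) - q.2 ≠ 0 := by
    intro h
    apply hne
    have : (q.2 : ℝ) = p.2 := by linarith
    exact_mod_cast this
  push_cast
  rw [div_eq_iff h1]
  unfold lv at heq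
  linarith

end Pool.Agent.DegRange
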