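import Mathlib

set_option autoImplicit false

/-!
The numerical choice of the number of steps.
-/

namespace Pool.Agent.DegRange

open Finset

/-- `(1/64) ∏_{j<k} (6·2^j/S)` -/
noncomputable def eps (k : ℕ) (S : ℝ) : ℝ := 1 / 64 * ∏ j ∈ Finset.range k, (6 * 2 ^ j / S)

theorem eps_nonneg (k : ℕ) {S : ℝ} (hS : 0 < S) : 0 ≤ eps k S := by
  unfold eps
  positivity

theorem eps_anti (k : ℕ) {S T : ℝ} (hS : 0 < S) (hST : S ≤ T) : eps k T ≤ eps k S := by
  unfold eps
  apply mul_le_mul_of_nonneg_left _ (by norm_num)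
  apply Finset.prod_le_prod
  · intro j _
    have : 0 < T := lt_of_lt_of_le hS hST
    positivity
  · intro j _
    exact div_le_div_of_nonneg_left (by positivity) hS hST

theorem prod_exp (k : ℕ) {S : ℝ} (hS : 0 < S) :
    ∏ j ∈ Finset.range k, (6 * 2 ^ j / S) =
      Real.exp ((k : ℝ) * ((k : ℝ) - 1) / 2 * Real.log 2 - k * Real.log (S / 6)) := by
  induction k with
  | zero => simp
  | succ k ih =>
    rw [Finset.prod_range_succ, ih]
    have e1 : (6 * 2 ^ k / S : ℝ) = Real.exp (k * Real.log 2 - Real.log (S / 6)) := by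
      rw [Real.exp_sub, Real.exp_log (by positivity), mul_comm (k : ℝ), Real.exp_mul,
        Real.exp_log (by norm_num), Real.rpow_natCast]
      field_simp
    rw [e1, ← Real.exp_add]
    congr 1
    push_cast
    ring

/-- the optimal number of steps -/
theorem exists_k {S : ℝ} (hS : 6 ≤ S) : ∃ k : ℕ,
    eps k S ≤ 1 / 64 * Real.exp (-((Real.log (S / 6)) ^ 2 / (2 * Real.log 2) + Real.log (S / 6) / 2)) := by
  have hl : 0 ≤ Real.log (S / 6) := Real.log_nonneg (by linarith)
  have ha : 0 < Real.log 2 := Real.log_pos (by norm_num)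
  set a := Real.log 2 with haa
  set l := Real.log (S / 6) with hll
  refine ⟨⌊l / a⌋₊ + 1, ?_⟩
  unfold eps
  rw [prod_exp _ (by linarith)]
  apply mul_le_mul_of_nonneg_left _ (by norm_num)
  apply Real.exp_le_exp.mpr
  rw [← hll, ← haa]
  obtain ⟨k, hk⟩ : ∃ k : ℝ, k = ((⌊l / a⌋₊ + 1 : ℕ) : ℝ) := ⟨_, rfl⟩
  rw [← hk]
  have h1 : l / a < k := by
    rw [hk]
    push_cast
    exact Nat.lt_floor_add_one _
  have h2 : k ≤ l / a + 1 := by
    rw [hk]
    push_cast
    have := Nat.floor_le (div_nonneg hl ha.le)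
    linarith
  have h3 : 0 ≤ k * a - l := by
    rw [div_lt_iff₀ ha] at h1
    linarith
  have h4 : 0 ≤ a - (k * a - l) := by
    have : k * a ≤ (l / a + 1) * a := mul_le_mul_of_nonneg_right h2 ha.le
    rw [add_mul, div_mul_cancel₀ _ ha.ne'] at this
    linarith
  have h5 := mul_nonneg h3 h4
  have e : k * (k - 1) / 2 * a - k * l + (l ^ 2 / (2 * a) + l / 2) =
      -((k * a - l) * (a - (k * a - l))) / (2 * a) := by
    field_simp
    ring
  have h6 : -((k * a - l) * (a - (k * a - l))) / (2 * a) ≤ 0 :=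
    div_nonpos_of_nonpos_of_nonneg (by linarith) (by linarith)
  linarith

/-- the condition used at the kinks follows from `d⁴ ε ≤ 1/4`, `ε ≤ 1/64` -/
theorem small_of {D e : ℝ} (he : 0 ≤ e) (he' : e ≤ 1 / 64) (h : D ^ 4 * e ≤ 1 / 4) :
    D ^ 4 * (1 + e) ^ 2 * (2 * e + e ^ 2) < 1 := by
  have h1 : (1 + e) ^ 2 * (2 + e) ≤ (1 + 1 / 64) ^ 2 * (2 + 1 / 64) := by
    apply mul_le_mul _ (by linarith) (by linarith) (by positivity)
    exact pow_le_pow_left₀ (by linarith) (by linarith) 2
  have h2 : 0 ≤ (1 + e) ^ 2 * (2 + e) := by positivity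
  calc D ^ 4 * (1 + e) ^ 2 * (2 * e + e ^ 2) = (D ^ 4 * e) * ((1 + e) ^ 2 * (2 + e)) := by ring
    _ ≤ (1 / 4) * ((1 + e) ^ 2 * (2 + e)) := mul_le_mul_of_nonneg_right h h2
    _ ≤ (1 / 4) * ((1 + 1 / 64) ^ 2 * (2 + 1 / 64)) := mul_le_mul_of_nonneg_left h1 (by norm_num)
    _ < 1 := by norm_num

theorem numeric (t : ℝ) (ht : 9 ≤ t) (N : ℕ)
    (hN2 : Real.sqrt t < N + 1) (d : ℕ)
    (hd : (d : ℝ) ≤ 2 * Real.exp ((Real.log (t / 36)) ^ 2 / 23)) :
    ∃ k : ℕ, (d : ℝ) ^ 4 * (1 + eps k N) ^ 2 * (2 * eps k N + (eps k N) ^ 2) < 1 := by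
  rcases lt_or_ge t 144 with h | h
  · -- `d ≤ 2`
    refine ⟨0, ?_⟩
    have e0 : eps 0 (N : ℝ) = 1 / 64 := by simp [eps]
    have h1 : |Real.log (t / 36)| ≤ 2 * Real.log 2 := by
      have e4 : 2 * Real.log 2 = Real.log 4 := by
        rw [← Real.log_rpow (by norm_num)]
        norm_num
      rw [e4, abs_le]
      constructor
      · rw [← Real.log_inv]
        apply Real.log_le_log (by norm_num)
        linarith
      · apply Real.log_le_log (by positivity)
        linarith
    have h2 : (Real.log (t / 36)) ^ 2 ≤ (2 * Real.log 2) ^ 2 := by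
      rw [← sq_abs]
      exact pow_le_pow_left₀ (abs_nonneg _) h1 2
    have h3 := Real.log_two_lt_d9
    have h3' : 0 < Real.log 2 := Real.log_pos (by norm_num)
    have h4 : (Real.log (t / 36)) ^ 2 / 23 ≤ 1 / 10 := by
      have : (2 * Real.log 2) ^ 2 ≤ (2 * 0.7) ^ 2 := by
        apply pow_le_pow_left₀ (by positivity)
        linarith
      rw [div_le_iff₀ (by norm_num)]
      norm_num at this ⊢
      linarith
    have h5 : Real.exp ((Real.log (t / 36)) ^ 2 / 23) < 3 / 2 := by
      have h6 : Real.exp ((Real.log (t / 36)) ^ 2 / 23) ≤ Real.exp (1 / 10) := Real.exp_le_exp.mpr h4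
      have h7 : Real.exp (1 / 10) < 3 / 2 := by
        have h8 : Real.exp 1 < (3 / 2 : ℝ) ^ 10 := by
          have := Real.exp_one_lt_d9
          norm_num
          linarith
        have h9 : Real.exp 1 = (Real.exp (1 / 10)) ^ 10 := by
          rw [← Real.exp_nat_mul]
          norm_num
        rw [h9] at h8
        exact lt_of_pow_lt_pow_left₀ 10 (by norm_num) h8
      linarith
    have h6 : (d : ℝ) < 3 := by linarith
    have h7 : d < 3 := by exact_mod_cast h6
    have h8 : d ≤ 2 := by omega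
    rw [e0]
    have h9 : (d : ℝ) ≤ 2 := by exact_mod_cast h8
    have h10 : (d : ℝ) ^ 4 ≤ 2 ^ 4 := pow_le_pow_left₀ (Nat.cast_nonneg _) h9 4
    apply small_of (by norm_num) le_rfl
    norm_num at h10 ⊢
    linarith
  · -- large `t`
    have hs12 : 12 ≤ Real.sqrt t := by
      apply Real.le_sqrt_of_sq_le
      norm_num
      exact h
    have hN12 : (12 : ℝ) ≤ N := by
      have : (11 : ℝ) < N := by linarith
      have h11 : 11 < N := by exact_mod_cast this
      have : 12 ≤ N := by omega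
      exact_mod_cast this
    obtain ⟨k, hk⟩ := exists_k (S := (N : ℝ)) (by linarith)
    refine ⟨k, ?_⟩
    set l := Real.log ((N : ℝ) / 6) with hl
    have ha := Real.log_two_lt_d9
    have ha' := Real.log_two_gt_d9
    have hl2 : Real.log 2 ≤ l := by
      apply Real.log_le_log (by norm_num)
      linarith
    have he0 : 0 ≤ eps k (N : ℝ) := eps_nonneg k (by linarith)
    have hF : 0 ≤ l ^ 2 / (2 * Real.log 2) + l / 2 := by
      have : 0 < Real.log 2 := by linarith
      have : 0 ≤ l := by linarith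
      positivity
    have he1 : eps k (N : ℝ) ≤ 1 / 64 := by
      refine hk.trans ?_
      have : Real.exp (-(l ^ 2 / (2 * Real.log 2) + l / 2)) ≤ 1 := Real.exp_le_one_iff.mpr (by linarith)
      linarith
    apply small_of he0 he1
    -- logarithm of `t/36`
    have hlog : Real.log (t / 36) = 2 * Real.log (Real.sqrt t / 6) := by
      have e : t / 36 = (Real.sqrt t / 6) ^ 2 := by
        rw [div_pow, Real.sq_sqrt (by linarith)]
        norm_num
      rw [e, Real.log_pow]
      norm_num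
    have hls : Real.log (Real.sqrt t / 6) ≤ l + 1 / 12 := by
      have e1 : Real.sqrt t / 6 ≤ (N : ℝ) / 6 * (1 + 1 / 12) := by
        have : (1 : ℝ) ≤ N / 12 := by linarith
        linarith
      have e2 : Real.log (Real.sqrt t / 6) ≤ Real.log ((N : ℝ) / 6 * (1 + 1 / 12)) :=
        Real.log_le_log (by positivity) e1
      rw [Real.log_mul (by positivity) (by norm_num)] at e2
      have e3 : Real.log (1 + 1 / 12) ≤ 1 / 12 := by
        have := Real.log_le_sub_one_of_pos (show (0 : ℝ) < 1 + 1 / 12 by norm_num)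
        linarith
      linarith
    have hls0 : 0 ≤ Real.log (Real.sqrt t / 6) := Real.log_nonneg (by linarith)
    have hE : 4 * ((Real.log (t / 36)) ^ 2 / 23) ≤ l ^ 2 / (2 * Real.log 2) + l / 2 := by
      rw [hlog]
      have e1 : (Real.log (Real.sqrt t / 6)) ^ 2 ≤ (l + 1 / 12) ^ 2 :=
        pow_le_pow_left₀ hls0 hls 2
      have e2 : (0.72 : ℝ) * l ^ 2 ≤ l ^ 2 / (2 * Real.log 2) := by
        rw [le_div_iff₀ (by linarith)]
        have : (0.72 : ℝ) * (2 * Real.log 2) ≤ 1 := by
          norm_num at ha ⊢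
          linarith
        nlinarith [sq_nonneg l]
      nlinarith [sq_nonneg l]
    have hd4 : (d : ℝ) ^ 4 ≤ 16 * Real.exp (l ^ 2 / (2 * Real.log 2) + l / 2) := by
      calc (d : ℝ) ^ 4 ≤ (2 * Real.exp ((Real.log (t / 36)) ^ 2 / 23)) ^ 4 :=
            pow_le_pow_left₀ (Nat.cast_nonneg _) hd 4
        _ = 16 * Real.exp (4 * ((Real.log (t / 36)) ^ 2 / 23)) := by
            rw [mul_pow, ← Real.exp_nat_mul]
            norm_num
        _ ≤ _ := by
            apply mul_le_mul_of_nonneg_left _ (by norm_num)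
            exact Real.exp_le_exp.mpr hE
    calc (d : ℝ) ^ 4 * eps k (N : ℝ)
        ≤ (16 * Real.exp (l ^ 2 / (2 * Real.log 2) + l / 2)) *
          (1 / 64 * Real.exp (-(l ^ 2 / (2 * Real.log 2) + l / 2))) := by
          apply mul_le_mul hd4 hk he0 (by positivity)
      _ = 1 / 4 := by
          rw [show (16 * Real.exp (l ^ 2 / (2 * Real.log 2) + l / 2)) *
            (1 / 64 * Real.exp (-(l ^ 2 / (2 * Real.log 2) + l / 2))) =
            1 / 4 * (Real.exp (l ^ 2 / (2 * Real.log 2) + l / 2) *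
              Real.exp (-(l ^ 2 / (2 * Real.log 2) + l / 2))) by ring, ← Real.exp_add]
          simp
      _ ≤ 1 / 4 := le_rfl

end Pool.Agent.DegRange
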