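import Mathlib
import Pool.Agent.Lib.QMGlobal
import Pool.Agent.DegRange.Core
import Pool.Agent.DegRange.Num

set_option autoImplicit false

/-!
Exact Nagata inequality in a superpolynomial range of degrees.
-/

namespace Pool.Agent.DegRange

open Finset Pool.Agent.QMVal

/-- the coefficient of `x^i Y^j` in `f(x, ξ(x)+Y, 1)` -/
noncomputable def co (c : ℕ → ℂ) (f : MvPolynomial (Fin 3) ℂ) (i j : ℕ) : ℂ :=
  PowerSeries.coeff i
    ((MvPolynomial.aeval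
        (![Polynomial.C PowerSeries.X,
           Polynomial.C (PowerSeries.X * PowerSeries.mk c) + Polynomial.X,
           1] : Fin 3 → Polynomial (PowerSeries ℂ)) f).coeff j)

/-- countably many bounds at once -/
theorem combine {ι : Type} [Countable ι] [Nonempty ι] (τ μ : ι → ℝ)
    (h : ∀ n, MuHatLe (τ n) (μ n)) :
    ∃ S : ℕ → MvPolynomial ℕ ℂ, (∀ k, S k ≠ 0) ∧
      ∀ c : ℕ → ℂ, (∀ k, MvPolynomial.eval c (S k) ≠ 0) →
        ∀ n : ι, ∀ d : ℕ, ∀ f : MvPolynomial (Fin 3) ℂ, f.IsHomogeneous d → f ≠ 0 →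
          ∃ i j : ℕ, co c f i j ≠ 0 ∧ (i : ℝ) + τ n * (j : ℝ) ≤ (d : ℝ) * μ n := by
  choose T hT hT' using h
  obtain ⟨e, he⟩ := exists_surjective_nat (ι × ℕ)
  refine ⟨fun k => T (e k).1 (e k).2, fun k => hT _ _, ?_⟩
  intro c hc n d f hf hf0
  apply hT' n c _ d f hf hf0
  intro k
  obtain ⟨m, hm⟩ := he (n, k)
  have := hc m
  simp only [hm] at this
  exact this

theorem main :
    ∃ S : ℕ → MvPolynomial ℕ ℂ, (∀ k, S k ≠ 0) ∧
      ∀ c : ℕ → ℂ, (∀ k, MvPolynomial.eval c (S k) ≠ 0) →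
        ∀ t : ℝ, 9 ≤ t → ∀ d : ℕ, (d : ℝ) ≤ 2 * Real.exp ((Real.log (t / 36)) ^ 2 / 23) →
          ∀ f : MvPolynomial (Fin 3) ℂ, f.IsHomogeneous d → f ≠ 0 →
            ∃ i j : ℕ, co c f i j ≠ 0 ∧ (i : ℝ) + t * (j : ℝ) ≤ (d : ℝ) * Real.sqrt t := by
  -- the countable family: all rational `β ≥ 9` and all `k`, and all squares
  have hex : ∀ (r : {r : ℚ // 9 ≤ r}) (k : ℕ),
      MuHatLe ((r : ℚ) : ℝ) (Real.sqrt ((r : ℚ) : ℝ) * (1 + eps k (Real.sqrt ((r : ℚ) : ℝ)))) := by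
    intro r k
    have h9 : (9 : ℝ) ≤ ((r : ℚ) : ℝ) := by exact_mod_cast r.2
    have h1 : 3 ≤ Real.sqrt ((r : ℚ) : ℝ) := by
      apply Real.le_sqrt_of_sq_le
      norm_num
      exact h9
    obtain ⟨s, hs, hS, _, hle⟩ := approx2 k (Real.sqrt ((r : ℚ) : ℝ)) h1
    exact (hs.bound (by linarith) hS).mono le_rfl hle
  have hsq : ∀ n : ℕ, MuHatLe (((n + 1 : ℕ) : ℝ) ^ 2) ((n + 1 : ℕ) : ℝ) :=
    fun n => (SMin.nat (n := n + 1) (by omega)).2
  obtain ⟨S, hS, hS'⟩ := combine (ι := ({r : ℚ // 9 ≤ r} × ℕ) ⊕ ℕ)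
    (Sum.elim (fun p => ((p.1 : ℚ) : ℝ)) (fun n => ((n + 1 : ℕ) : ℝ) ^ 2))
    (Sum.elim (fun p => Real.sqrt ((p.1 : ℚ) : ℝ) * (1 + eps p.2 (Real.sqrt ((p.1 : ℚ) : ℝ))))
      (fun n => ((n + 1 : ℕ) : ℝ)))
    (by
      rintro (⟨r, k⟩ | n)
      · exact hex r k
      · exact hsq n)
  refine ⟨S, hS, ?_⟩
  intro c hc t ht d hd f hf hf0
  have hrat : ∀ (r : ℚ) (k : ℕ), (9 : ℝ) ≤ (r : ℝ) → ∃ i j : ℕ, co c f i j ≠ 0 ∧
      (i : ℝ) + (r : ℝ) * (j : ℝ) ≤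
        (d : ℝ) * (Real.sqrt (r : ℝ) * (1 + eps k (Real.sqrt (r : ℝ)))) := by
    intro r k hr
    exact hS' c hc (Sum.inl (⟨r, by exact_mod_cast hr⟩, k)) d f hf hf0
  have hsqr : ∀ n : ℕ, 1 ≤ n → ∃ i j : ℕ, co c f i j ≠ 0 ∧
      (i : ℝ) + (n : ℝ) ^ 2 * (j : ℝ) ≤ (d : ℝ) * n := by
    intro n hn
    obtain ⟨m, rfl⟩ : ∃ m, n = m + 1 := ⟨n - 1, by omega⟩
    exact hS' c hc (Sum.inr m) d f hf hf0
  have hst3 : 3 ≤ Real.sqrt t := by
    apply Real.le_sqrt_of_sq_le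
    norm_num
    exact ht
  obtain ⟨N, hN⟩ : ∃ N : ℕ, N = ⌊Real.sqrt t⌋₊ := ⟨_, rfl⟩
  have hN1 : (N : ℝ) ≤ Real.sqrt t := by
    rw [hN]
    exact Nat.floor_le (by linarith)
  have hN2 : Real.sqrt t < N + 1 := by
    rw [hN]
    exact Nat.lt_floor_add_one _
  have hN3 : 3 ≤ N := by
    rw [hN]
    apply Nat.le_floor
    exact_mod_cast hst3
  have hN3' : (3 : ℝ) ≤ N := by exact_mod_cast hN3
  have hstt : Real.sqrt t ^ 2 = t := Real.sq_sqrt (by linarith)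
  obtain ⟨k, hk⟩ := numeric t ht N hN2 d hd
  have he0 : 0 ≤ eps k (N : ℝ) := eps_nonneg k (by linarith)
  -- a finite part of the support
  obtain ⟨K, hK⟩ : ∃ K : ℕ, (d : ℝ) * (((N : ℝ) + 1) * (1 + eps k (N : ℝ))) ≤ K := exists_nat_ge _
  classical
  let A : Finset (ℕ × ℕ) :=
    ((Finset.range (K + 1)) ×ˢ (Finset.range (K + 1))).filter (fun p => co c f p.1 p.2 ≠ 0)
  have hmem : ∀ (τ a : ℝ) (i j : ℕ), 1 ≤ τ → co c f i j ≠ 0 → (i : ℝ) + τ * (j : ℝ) ≤ a →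
      a ≤ (d : ℝ) * (((N : ℝ) + 1) * (1 + eps k (N : ℝ))) → ((i, j) : ℕ × ℕ) ∈ A := by
    intro τ a i j hτ hij hle ha
    have h0 : (0 : ℝ) ≤ i := Nat.cast_nonneg _
    have h1 : (0 : ℝ) ≤ j := Nat.cast_nonneg _
    have h2 : (j : ℝ) ≤ τ * j := le_mul_of_one_le_left h1 hτ
    have h3 : (i : ℝ) ≤ K := by linarith
    have h4 : (j : ℝ) ≤ K := by linarith
    have h3' : i ≤ K := by exact_mod_cast h3
    have h4' : j ≤ K := by exact_mod_cast h4
    simp only [A, Finset.mem_filter, Finset.mem_product, Finset.mem_range]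
    exact ⟨⟨by omega, by omega⟩, hij⟩
  have hd0 : (0 : ℝ) ≤ d := Nat.cast_nonneg _
  have hcore := core A (d : ℝ) ((N : ℝ) ^ 2) (((N : ℝ) + 1) ^ 2) t (by positivity)
    (by rw [← hstt]; exact pow_le_pow_left₀ (by linarith) hN1 2)
    (by rw [← hstt]; exact pow_le_pow_left₀ (by linarith) hN2.le 2)
    (by
      obtain ⟨i, j, hij, hle⟩ := hsqr N (by omega)
      refine ⟨(i, j), ?_, ?_⟩
      · apply hmem ((N : ℝ) ^ 2) ((d : ℝ) * N) i j (by nlinarith) hij hle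
        apply mul_le_mul_of_nonneg_left _ hd0
        nlinarith
      · rw [Real.sqrt_sq (by linarith)]
        exact hle)
    (by
      obtain ⟨i, j, hij, hle⟩ := hsqr (N + 1) (by omega)
      push_cast at hle
      refine ⟨(i, j), ?_, ?_⟩
      · apply hmem (((N : ℝ) + 1) ^ 2) ((d : ℝ) * ((N : ℝ) + 1)) i j (by nlinarith) hij hle
        apply mul_le_mul_of_nonneg_left _ hd0
        nlinarith
      · rw [Real.sqrt_sq (by linarith)]
        exact hle)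
    (by
      intro β hβ1 hβ2 p hp q hq hne heq hmin
      have hβ9 : 9 ≤ β := by nlinarith
      have hNβ : (N : ℝ) ≤ Real.sqrt β := Real.le_sqrt_of_sq_le hβ1
      have hβN : Real.sqrt β ≤ (N : ℝ) + 1 := by
        rw [Real.sqrt_le_left (by linarith)]
        exact hβ2
      apply kink (by linarith) hne heq d (eps k (N : ℝ)) he0 _ hk
      obtain ⟨r, hr⟩ := kink_rat hne heq
      obtain ⟨i, j, hij, hle⟩ := hrat r k (by rw [hr]; exact hβ9)
      rw [hr] at hle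
      have hee : eps k (Real.sqrt β) ≤ eps k (N : ℝ) := eps_anti k (by linarith) hNβ
      have he1 : 0 ≤ eps k (Real.sqrt β) := eps_nonneg k (by linarith)
      have hbd : (d : ℝ) * (Real.sqrt β * (1 + eps k (Real.sqrt β))) ≤
          (d : ℝ) * (Real.sqrt β * (1 + eps k (N : ℝ))) := by
        apply mul_le_mul_of_nonneg_left _ hd0
        apply mul_le_mul_of_nonneg_left _ (by linarith)
        linarith
      have hin : ((i, j) : ℕ × ℕ) ∈ A := by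
        apply hmem β _ i j (by linarith) hij hle
        refine hbd.trans ?_
        apply mul_le_mul_of_nonneg_left _ hd0
        apply mul_le_mul_of_nonneg_right hβN
        linarith
      have h1 := hmin _ hin
      have h2 : lv (i, j) β = (i : ℝ) + β * (j : ℝ) := rfl
      rw [h2] at h1
      have h3 : (d : ℝ) * Real.sqrt β * (1 + eps k (N : ℝ)) =
        (d : ℝ) * (Real.sqrt β * (1 + eps k (N : ℝ))) := by ring
      rw [h3]
      linarith)
  obtain ⟨⟨i, j⟩, hp, hle⟩ := hcore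
  simp only [A, Finset.mem_filter] at hp
  exact ⟨i, j, hp.2, hle⟩

end Pool.Agent.DegRange
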